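import Mathlib
import Pool.Agent.N205.SE.StmA

/-!
# Integral correspondences, Lichtenbaum Chow groups and unramified cohomology: definitions
-/

set_option autoImplicit false

open CategoryTheory AlgebraicGeometry

universe u v w

namespace Pool.Agent.N205.NR

open Polynomial Pool.Agent.H914 Pool.Agent.H914.VarClass Pool.Agent.H914.VarClass.Obj
  Pool.Agent.W492.BB Pool.Agent.W484.CK

variable {k : Type u} [Field k] {𝒱 : VarClass k}

/-- The data of the Chow groups with integral coefficients of the varieties in the class `𝒱`; here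
`C` stands for the Chow groups with rational coefficients. -/
structure IntegralChow (C : TheoryData.{u, v, 0} 𝒱 ℚ) where
  /-- the sum of the groups `CH^i(X)`, with integral coefficients -/
  CH : 𝒱.Obj → Type v
  [group : ∀ X, AddCommGroup (CH X)]
  /-- the group `CH^i(X)` -/
  gr : ∀ X, ℤ → AddSubgroup (CH X)
  /-- the map to the Chow groups with rational coefficients -/
  rat : ∀ X, CH X →+ C.A X
  /-- the composition of correspondences -/
  comp : ∀ {X Y Z : 𝒱.Obj}, CH (X.prod Y) → CH (Y.prod Z) → CH (X.prod Z)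
  /-- the transposed graph of a morphism `X ⟶ Y`, a correspondence from `Y` to `X` -/
  graph : ∀ {X Y : 𝒱.Obj}, (X ⟶ Y) → CH (Y.prod X)

attribute [instance] IntegralChow.group

/-- `CH^i(X)` with rational coefficients is the tensor product of the integral group with `ℚ`, and
the composition of correspondences and the classes of graphs are compatible with this. -/
structure IsIntegralChow {C : TheoryData.{u, v, 0} 𝒱 ℚ} (B : IntegralChow C) : Prop where
  rat_mem : ∀ {X : 𝒱.Obj} {i : ℤ} {z : B.CH X}, z ∈ B.gr X i → C.Deg i (B.rat X z)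
  torsion : ∀ {X : 𝒱.Obj} {z : B.CH X}, B.rat X z = 0 → ∃ n : ℕ, 0 < n ∧ n • z = 0
  multiple : ∀ {X : 𝒱.Obj} {i : ℤ} {z : C.A X}, C.Deg i z →
    ∃ n : ℕ, 0 < n ∧ ∃ w ∈ B.gr X i, B.rat X w = (n : ℚ) • z
  rat_comp : ∀ {X Y Z : 𝒱.Obj} (Γ : B.CH (X.prod Y)) (Δ : B.CH (Y.prod Z)),
    B.rat _ (B.comp Γ Δ) = compose C (B.rat _ Γ) (B.rat _ Δ)
  rat_graph : ∀ {X Y : 𝒱.Obj} (f : X ⟶ Y), B.rat _ (B.graph f) = C.down (Obj.lift f (𝟙 X)) 1
  comp_graph : ∀ {X Y Z : 𝒱.Obj} (f : X ⟶ Y) (g : Y ⟶ Z),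
    B.comp (B.graph g) (B.graph f) = B.graph (f ≫ g)

/-- The data of a theory with integral coefficients on which correspondences act: groups `M(X)` with
subgroups `M^i(X)`, and an action of the classes in `CH(X × Y)` as maps `M(X) → M(Y)`. -/
structure IntTheory {C : TheoryData.{u, v, 0} 𝒱 ℚ} (B : IntegralChow C) where
  /-- the group `M(X)` -/
  M : 𝒱.Obj → Type v
  [group : ∀ X, AddCommGroup (M X)]
  /-- the group `M^i(X)` -/
  gr : ∀ X, ℤ → AddSubgroup (M X)
  /-- the action of correspondences -/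
  act : ∀ {X Y : 𝒱.Obj}, B.CH (X.prod Y) →+ M X →+ M Y

attribute [instance] IntTheory.group

namespace IntTheory

variable {C : TheoryData.{u, v, 0} 𝒱 ℚ} {B : IntegralChow C} (T : IntTheory B) {X Y : 𝒱.Obj}

/-- The pull-back along a morphism: the action of the transposed graph. -/
noncomputable def pull (f : X ⟶ Y) : T.M Y →+ T.M X := T.act (B.graph f)

/-- The elements of `M^i(X)` whose pull-back along `o : Y ⟶ X` is zero. -/
noncomputable def kernel (o : Y ⟶ X) (i : ℤ) : AddSubgroup (T.M X) := T.gr X i ⊓ (T.pull o).ker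

end IntTheory

/-- The action of correspondences shifts the degrees as usual, and it is compatible with composition
and identities. Examples: the Chow groups `CH^i(X)`, and, for fixed `m`, the étale motivic cohomology
groups `H^(2 i - m)_et(X, ℤ(i))` and the Weil-étale motivic cohomology groups
`H^(2 i - m)_W(X, ℤ(i))`. (For `i < 0` the complex `ℤ(i)` is the sum of the sheaves `ℚ_ℓ/ℤ_ℓ(i)`, `ℓ`
different from the characteristic, placed in degree one.) -/
structure IsIntTheory {C : TheoryData.{u, v, 0} 𝒱 ℚ} {B : IntegralChow C} (T : IntTheory B) :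
    Prop where
  act_mem : ∀ {X Y : 𝒱.Obj} {i j : ℤ} {Γ : B.CH (X.prod Y)} {m : T.M X},
    Γ ∈ B.gr (X.prod Y) (X.dim + j) → m ∈ T.gr X i → T.act Γ m ∈ T.gr Y (i + j)
  act_comp : ∀ {X Y Z : 𝒱.Obj} (Γ : B.CH (X.prod Y)) (Δ : B.CH (Y.prod Z)) (m : T.M X),
    T.act (B.comp Γ Δ) m = T.act Δ (T.act Γ m)
  pull_id : ∀ {X : 𝒱.Obj} (m : T.M X), T.pull (𝟙 X) m = m
  pull_mem : ∀ {X Y : 𝒱.Obj} (f : X ⟶ Y) {i : ℤ} {m : T.M Y}, m ∈ T.gr Y i → T.pull f m ∈ T.gr X i

/-- There are correspondences of degree zero `α` from `X` to `Y` and `β` from `Y` to `X` whose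
composition is a nonzero multiple of the identity of `X`: the motive of `X` is, up to multiples, a
direct summand of the motive of `Y`. For instance, this is the case if there is a surjective morphism
from `Y` to `X`. -/
def IsDominated {C : TheoryData.{u, v, 0} 𝒱 ℚ} (B : IntegralChow C) (X Y : 𝒱.Obj) : Prop :=
  ∃ n : ℕ, 0 < n ∧ ∃ α ∈ B.gr (X.prod Y) X.dim, ∃ β ∈ B.gr (Y.prod X) Y.dim,
    B.comp α β = n • B.graph (𝟙 X)

/-- The endomorphism `π` acts on `M^i(X)` as multiplication by `Q ^ i` if `i ≥ 0`, and `Q ^ (-i)` times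
its action is the identity if `i < 0`. -/
def FrobeniusActs {C : TheoryData.{u, v, 0} 𝒱 ℚ} {B : IntegralChow C} (T : IntTheory B)
    {X : 𝒱.Obj} (π : X ⟶ X) (Q : ℕ) : Prop :=
  ∀ (i : ℤ) (m : T.M X), m ∈ T.gr X i → Q ^ (-i).toNat • T.pull π m = Q ^ i.toNat • m

/-- For every `n > 0` only finitely many elements of `M^i(X)` are killed by `n`. -/
def FiniteTorsion {C : TheoryData.{u, v, 0} 𝒱 ℚ} {B : IntegralChow C} (T : IntTheory B)
    (X : 𝒱.Obj) (i : ℤ) : Prop :=
  ∀ n : ℕ, 0 < n → {t : T.M X | t ∈ T.gr X i ∧ n • t = 0}.Finite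

/-- The data for the unramified cohomology. Here `S` stands for the Chow groups `CH^i(X)` and `T` for
the étale motivic cohomology groups `H^(2 i)_et(X, ℤ(i))`. -/
structure Unramified {C : TheoryData.{u, v, 0} 𝒱 ℚ} {B : IntegralChow C} (S T : IntTheory B) where
  /-- the map `CH^i(X) → H^(2 i)_et(X, ℤ(i))` -/
  cyc : ∀ X, S.M X →+ T.M X
  /-- the group `H^3_nr(X, ℚ/ℤ(2))` -/
  Hnr : 𝒱.Obj → Type v
  [groupH : ∀ X, AddCommGroup (Hnr X)]
  /-- the map `H^4_et(X, ℤ(2)) → H^3_nr(X, ℚ/ℤ(2))` -/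
  toHnr : ∀ X, T.gr X 2 →+ Hnr X
  /-- the pull-back in unramified cohomology -/
  pullH : ∀ {X Y : 𝒱.Obj}, (X ⟶ Y) → (Hnr Y →+ Hnr X)

attribute [instance] Unramified.groupH

/-- The known properties of these groups, for smooth projective varieties over a finite field:
`CH^i(X) = H^(2 i)_et(X, ℤ(i))` for `i ≤ 1`, and these groups are finitely generated; the exact
sequence `0 → CH^2(X) → H^4_et(X, ℤ(2)) → H^3_nr(X, ℚ/ℤ(2)) → 0` of Kahn, where the last group is a
torsion group; and for all `n > 0`, only finitely many elements of `H^4_et(X, ℤ(2))` are killed by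
`n`. -/
structure IsUnramified {C : TheoryData.{u, v, 0} 𝒱 ℚ} {B : IntegralChow C} {S T : IntTheory B}
    (U : Unramified S T) : Prop where
  cyc_mem : ∀ {X : 𝒱.Obj} {i : ℤ} {z : S.M X}, z ∈ S.gr X i → U.cyc X z ∈ T.gr X i
  cyc_act : ∀ {X Y : 𝒱.Obj} (Γ : B.CH (X.prod Y)) (z : S.M X),
    U.cyc Y (S.act Γ z) = T.act Γ (U.cyc X z)
  low : ∀ {X : 𝒱.Obj} {i : ℤ} {t : T.M X}, i ≤ 1 → t ∈ T.gr X i → ∃ z ∈ S.gr X i, U.cyc X z = t
  low_fg : ∀ (X : 𝒱.Obj) (i : ℤ), i ≤ 1 → (S.gr X i).FG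
  injective : ∀ {X : 𝒱.Obj} {z : S.M X}, z ∈ S.gr X 2 → U.cyc X z = 0 → z = 0
  exact : ∀ {X : 𝒱.Obj} (t : T.gr X 2), U.toHnr X t = 0 ↔ ∃ z ∈ S.gr X 2, U.cyc X z = t
  surjective : ∀ X : 𝒱.Obj, Function.Surjective (U.toHnr X)
  pull_toHnr : ∀ {X Y : 𝒱.Obj} (f : X ⟶ Y) (t : T.gr Y 2) (t' : T.gr X 2),
    (t' : T.M X) = T.pull f t → U.pullH f (U.toHnr Y t) = U.toHnr X t'
  isTorsion : ∀ {X : 𝒱.Obj} (h : U.Hnr X), ∃ n : ℕ, 0 < n ∧ n • h = 0
  torsion : ∀ X : 𝒱.Obj, FiniteTorsion T X 2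

end Pool.Agent.N205.NR
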