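import Mathlib
import Pool.Agent.N205.NR.Defs
import Pool.Agent.N205.SE.Dual2

/-!
# The rational theory attached to a theory with integral coefficients
-/

set_option autoImplicit false
set_option linter.unusedSectionVars false

open CategoryTheory AlgebraicGeometry TensorProduct

universe u v w

namespace Pool.Agent.N205.NR

section loc

variable {A V : Type*} [AddCommGroup A] [AddCommGroup V] [Module ℚ V] (f : A →+ V)

theorem unit_end (W : Type*) [AddCommGroup W] [Module ℚ W] (x : nonZeroDivisors ℤ) :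
    IsUnit (algebraMap ℤ (Module.End ℤ W) x) := by
  have hx : (x : ℤ) ≠ 0 := nonZeroDivisors.coe_ne_zero x
  have hx' : ((x : ℤ) : ℚ) ≠ 0 := by exact_mod_cast hx
  rw [Module.End.isUnit_iff]
  constructor
  · intro a b hab
    have h1 : ((x : ℤ) : ℚ) • a = ((x : ℤ) : ℚ) • b := by
      rw [Int.cast_smul_eq_zsmul, Int.cast_smul_eq_zsmul]
      exact hab
    exact smul_right_injective W hx' h1
  · intro b
    refine ⟨((x : ℤ) : ℚ)⁻¹ • b, ?_⟩
    change (x : ℤ) • (((x : ℤ) : ℚ)⁻¹ • b) = b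
    rw [← Int.cast_smul_eq_zsmul ℚ, smul_smul, mul_inv_cancel₀ hx', one_smul]

/-- A map with torsion kernel, onto up to multiples, is a localization. -/
theorem isLoc (htor : ∀ z, f z = 0 → ∃ n : ℕ, 0 < n ∧ n • z = 0)
    (hmul : ∀ y : V, ∃ n : ℕ, 0 < n ∧ ∃ z, f z = (n : ℚ) • y) :
    IsLocalizedModule (nonZeroDivisors ℤ) f.toIntLinearMap where
  map_units := unit_end V
  surj := by
    intro y
    obtain ⟨n, hn, z, hz⟩ := hmul y
    refine ⟨(z, ⟨(n : ℤ), ?_⟩), ?_⟩
    · rw [mem_nonZeroDivisors_iff_ne_zero]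
      exact_mod_cast hn.ne'
    · change (n : ℤ) • y = f z
      rw [hz, ← Int.cast_smul_eq_zsmul ℚ, Int.cast_natCast]
  exists_of_eq := by
    intro a b hab
    change f a = f b at hab
    obtain ⟨n, hn, h1⟩ := htor (a - b) (by rw [map_sub, hab, sub_self])
    refine ⟨⟨(n : ℤ), ?_⟩, ?_⟩
    · rw [mem_nonZeroDivisors_iff_ne_zero]
      exact_mod_cast hn.ne'
    · change (n : ℤ) • a = (n : ℤ) • b
      rw [smul_sub, sub_eq_zero] at h1
      rw [natCast_zsmul, natCast_zsmul]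
      exact h1

/-- The extension of an additive map to a rational vector space. -/
theorem exists_ext (htor : ∀ z, f z = 0 → ∃ n : ℕ, 0 < n ∧ n • z = 0)
    (hmul : ∀ y : V, ∃ n : ℕ, 0 < n ∧ ∃ z, f z = (n : ℚ) • y) {W : Type*} [AddCommGroup W]
    [Module ℚ W] (h : A →+ W) : ∃ F : V →ₗ[ℚ] W, ∀ z, F (f z) = h z := by
  have h1 := isLoc f htor hmul
  let L := IsLocalizedModule.lift (nonZeroDivisors ℤ) f.toIntLinearMap h.toIntLinearMap
    (unit_end W)
  refine ⟨L.toAddMonoidHom.toRatLinearMap, fun z => ?_⟩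
  exact IsLocalizedModule.lift_apply (nonZeroDivisors ℤ) f.toIntLinearMap h.toIntLinearMap
    (unit_end W) z

end loc

section germ

/-- Sequences, with rational coefficients. -/
abbrev Germ (M : Type v) [AddCommGroup M] : Type v := ℚ ⊗[ℤ] (ℕ → M)

variable {M N P : Type v} [AddCommGroup M] [AddCommGroup N] [AddCommGroup P]

/-- The class of a sequence. -/
noncomputable def germ : (ℕ → M) →+ Germ M := (TensorProduct.mk ℤ ℚ (ℕ → M) 1).toAddMonoidHom

theorem germ_isLoc : IsLocalizedModule (nonZeroDivisors ℤ)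
    (TensorProduct.mk ℤ ℚ (ℕ → M) 1) :=
  (isLocalizedModule_iff_isBaseChange (nonZeroDivisors ℤ) ℚ _).2
    (TensorProduct.isBaseChange ℤ (ℕ → M) ℚ)

theorem germ_torsion {m : ℕ → M} (h : germ m = 0) : ∃ n : ℕ, 0 < n ∧ ∀ k, n • m k = 0 := by
  have h1 := germ_isLoc (M := M)
  obtain ⟨⟨c, hc⟩, h2⟩ := h1.exists_of_eq (x₁ := m) (x₂ := 0) (by rw [map_zero]; exact h)
  have hc0 := nonZeroDivisors.ne_zero hc
  refine ⟨c.natAbs, Int.natAbs_pos.2 hc0, fun k => ?_⟩
  have h3 : c • m k = 0 := by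
    have h4 := congrFun h2 k
    simpa using h4
  rcases Int.natAbs_eq c with h4 | h4
  · rw [h4, natCast_zsmul] at h3
    exact h3
  · rw [h4, neg_smul, natCast_zsmul, neg_eq_zero] at h3
    exact h3

theorem germ_multiple (y : Germ M) : ∃ n : ℕ, 0 < n ∧ ∃ m, germ m = (n : ℚ) • y := by
  have h1 := germ_isLoc (M := M)
  obtain ⟨⟨m, ⟨c, hc⟩⟩, h2⟩ := h1.surj y
  have hc0 := nonZeroDivisors.ne_zero hc
  change c • y = germ m at h2
  rcases Int.natAbs_eq c with h4 | h4
  · refine ⟨c.natAbs, Int.natAbs_pos.2 hc0, m, ?_⟩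
    rw [← h2, ← Int.cast_smul_eq_zsmul ℚ]
    congr 1
    rw [← Int.cast_natCast, ← h4]
  · refine ⟨c.natAbs, Int.natAbs_pos.2 hc0, -m, ?_⟩
    rw [map_neg, ← h2, ← Int.cast_smul_eq_zsmul ℚ, ← neg_smul]
    congr 1
    rw [← Int.cast_natCast, ← Int.cast_neg]
    congr 1
    omega

/-- The operation of a homomorphism. -/
noncomputable def germMap (h : M →+ N) : Germ M →ₗ[ℚ] Germ N :=
  LinearMap.baseChange ℚ (h.toIntLinearMap.compLeft ℕ)

theorem germMap_germ (h : M →+ N) (m : ℕ → M) : germMap h (germ m) = germ fun k => h (m k) := rfl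

theorem germ_ext {V : Type*} [AddCommGroup V] [Module ℚ V] {F G : Germ M →ₗ[ℚ] V}
    (h : ∀ m, F (germ m) = G (germ m)) : F = G := by
  ext y
  obtain ⟨n, hn, m, hm⟩ := germ_multiple (M := M) ((1 : ℚ) ⊗ₜ[ℤ] y)
  exact h y

end germ

end Pool.Agent.N205.NR
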