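import Mathlib

/-!
# Finitely generated abelian groups
-/

set_option autoImplicit false

namespace Pool.Agent.N205.NR

section

variable {M N : Type*} [AddCommGroup M] [AddCommGroup N]

theorem fg_iff {V : AddSubgroup M} : V.FG ↔ (AddSubgroup.toIntSubmodule V).FG := by
  rw [Submodule.fg_iff_addSubgroup_fg]
  rfl

/-- A subgroup of a finitely generated group is finitely generated. -/
theorem fg_of_le {V W : AddSubgroup M} (hW : W.FG) (h : V ≤ W) : V.FG := by
  rw [fg_iff] at hW ⊢
  have h1 : IsNoetherian ℤ (AddSubgroup.toIntSubmodule W) :=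
    isNoetherian_of_fg_of_noetherian _ hW
  have h2 : AddSubgroup.toIntSubmodule V ≤ AddSubgroup.toIntSubmodule W := h
  exact Submodule.FG.of_le hW h2

theorem fg_map {V : AddSubgroup M} (hV : V.FG) (f : M →+ N) : (V.map f).FG := by
  rw [fg_iff] at hV ⊢
  exact hV.map f.toIntLinearMap

theorem fg_iSup {ι : Type*} [Finite ι] {V : ι → AddSubgroup M} (hV : ∀ i, (V i).FG) :
    (⨆ i, V i).FG := by
  rw [fg_iff]
  have h1 : AddSubgroup.toIntSubmodule (⨆ i, V i) = ⨆ i, AddSubgroup.toIntSubmodule (V i) :=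
    map_iSup _ _
  rw [h1]
  exact Submodule.fg_iSup _ fun i => fg_iff.1 (hV i)

/-- If `n V` lies in a finitely generated group and only finitely many elements of `V` are killed by
`n`, then `V` is finitely generated. -/
theorem fg_of_smul {V W : AddSubgroup M} (hW : W.FG) {n : ℕ} (h : ∀ m ∈ V, n • m ∈ W)
    (hfin : {m : M | m ∈ V ∧ n • m = 0}.Finite) : V.FG := by
  let f : M →+ M := nsmulAddMonoidHom n
  have h1 : (V.map f).FG := by
    refine fg_of_le hW ?_
    rintro _ ⟨m, hm, rfl⟩
    exact h m hm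
  rw [fg_iff]
  refine Submodule.fg_of_fg_map_of_fg_inf_ker f.toIntLinearMap ?_ ?_
  · rw [fg_iff] at h1
    exact h1
  · have h2 : {m : M | m ∈ V ∧ n • m = 0} =
        (AddSubgroup.toIntSubmodule V ⊓ LinearMap.ker f.toIntLinearMap : Submodule ℤ M) := by
      ext m
      rfl
    rw [h2] at hfin
    refine ⟨hfin.toFinset, ?_⟩
    rw [Set.Finite.coe_toFinset, Submodule.span_eq]

/-- A finitely generated group killed by `n > 0` is finite. -/
theorem finite_of_fg {G : Type*} [AddCommGroup G] (hG : (⊤ : AddSubgroup G).FG) {n : ℕ} (hn : 0 < n)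
    (h : ∀ x : G, n • x = 0) : Finite G := by
  have h1 : AddGroup.FG G := ⟨hG⟩
  exact AddCommGroup.finite_of_fg_isAddTorsion G fun x =>
    isOfFinAddOrder_iff_nsmul_eq_zero.2 ⟨n, hn, h x⟩

end

end Pool.Agent.N205.NR
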