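import Mathlib
import Pool.Agent.N205.NR.Germ

/-!
# The rational theory attached to a theory with integral coefficients: correspondences
-/

set_option autoImplicit false
set_option linter.unusedSectionVars false

open CategoryTheory AlgebraicGeometry TensorProduct

universe u v w

namespace Pool.Agent.N205.NR

open Polynomial Pool.Agent.H914 Pool.Agent.H914.VarClass Pool.Agent.H914.VarClass.Obj
  Pool.Agent.W492.BB Pool.Agent.W484

variable {k : Type u} [Field k] {𝒱 : VarClass k} {C : TheoryData.{u, v, 0} 𝒱 ℚ} [hC : IsChow C]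
  {B : IntegralChow C} (hB : IsIntegralChow B) (T : IntTheory B) {X Y Z : 𝒱.Obj}

include hB in
theorem exists_multiple (y : C.A X) : ∃ n : ℕ, 0 < n ∧ ∃ z, B.rat X z = (n : ℚ) • y := by
  refine CH.homog_induction C (p := fun y => ∃ n : ℕ, 0 < n ∧ ∃ z, B.rat X z = (n : ℚ) • y)
    ?_ ?_ y
  · intro i a ha
    obtain ⟨n, hn, w, -, hw⟩ := hB.multiple ha
    exact ⟨n, hn, w, hw⟩
  · rintro a b ⟨n, hn, z, hz⟩ ⟨n', hn', z', hz'⟩
    refine ⟨n * n', Nat.mul_pos hn hn', n' • z + n • z', ?_⟩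
    rw [map_add, map_nsmul, map_nsmul, hz, hz', ← Nat.cast_smul_eq_nsmul ℚ,
      ← Nat.cast_smul_eq_nsmul ℚ, smul_smul, smul_smul, smul_add, Nat.cast_mul, mul_comm]

/-- The operation of an integral correspondence on sequences. -/
noncomputable def actG : B.CH (X.prod Y) →+ (Germ (T.M X) →ₗ[ℚ] Germ (T.M Y)) where
  toFun Γ := germMap (T.act Γ)
  map_zero' := by
    refine germ_ext fun m => ?_
    rw [germMap_germ, map_zero, LinearMap.zero_apply]
    exact map_zero germ
  map_add' Γ Δ := by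
    refine germ_ext fun m => ?_
    rw [LinearMap.add_apply, germMap_germ, germMap_germ, germMap_germ, ← map_add germ]
    congr 1
    funext k
    rw [map_add]
    rfl

theorem actG_germ (Γ : B.CH (X.prod Y)) (m : ℕ → T.M X) :
    actG T Γ (germ m) = germ fun k => T.act Γ (m k) := rfl

/-- The operation of a rational correspondence on sequences. -/
noncomputable def actR (X Y : 𝒱.Obj) : C.A (X.prod Y) →ₗ[ℚ] Germ (T.M X) →ₗ[ℚ] Germ (T.M Y) :=
  (exists_ext (B.rat (X.prod Y)) (fun _ h => hB.torsion h) (exists_multiple hB)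
    (actG T (X := X) (Y := Y))).choose

theorem actR_rat (Γ : B.CH (X.prod Y)) : actR hB T X Y (B.rat _ Γ) = actG T Γ :=
  (exists_ext (B.rat (X.prod Y)) (fun _ h => hB.torsion h) (exists_multiple hB)
    (actG T (X := X) (Y := Y))).choose_spec Γ

/-- The sequences with values in `M^i(X)`. -/
noncomputable def grG (X : 𝒱.Obj) (i : ℤ) : Submodule ℚ (Germ (T.M X)) :=
  Submodule.span ℚ {y | ∃ m : ℕ → T.M X, (∀ k, m k ∈ T.gr X i) ∧ y = germ m}

theorem germ_mem {i : ℤ} {m : ℕ → T.M X} (hm : ∀ k, m k ∈ T.gr X i) : germ m ∈ grG T X i :=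
  Submodule.subset_span ⟨m, hm, rfl⟩

include hB in
theorem eq_inv_smul {y : C.A X} {n : ℕ} (hn : 0 < n) {z : B.CH X} (hz : B.rat X z = (n : ℚ) • y) :
    y = (n : ℚ)⁻¹ • B.rat X z := by
  have hn' : (n : ℚ) ≠ 0 := by exact_mod_cast hn.ne'
  rw [hz, smul_smul, inv_mul_cancel₀ hn', one_smul]

theorem comp_smul_smul (a b : ℚ) (Γ : C.A (X.prod Y)) (Δ : C.A (Y.prod Z)) :
    C.comp (a • Γ) (b • Δ) = (a * b) • C.comp Γ Δ := by
  rw [TheoryData.comp, TheoryData.comp, map_smul, map_smul, smul_mul_assoc, mul_smul_comm,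
    map_smul, map_smul, smul_smul, mul_comm]

variable {T} (hT : IsIntTheory T)

include hT in
theorem actR_mem {i j : ℤ} {Γ : C.A (X.prod Y)} (hΓ : C.Deg (X.dim + j) Γ) {m : Germ (T.M X)}
    (hm : m ∈ grG T X i) : actR hB T X Y Γ m ∈ grG T Y (i + j) := by
  obtain ⟨n, hn, w, hw, hw'⟩ := hB.multiple hΓ
  rw [eq_inv_smul hB hn hw', map_smul, LinearMap.smul_apply, actR_rat]
  refine Submodule.smul_mem _ _ ?_
  unfold grG at hm
  induction hm using Submodule.span_induction with
  | mem m hm =>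
    obtain ⟨m', hm', rfl⟩ := hm
    rw [actG_germ]
    exact germ_mem T fun k => hT.act_mem hw (hm' k)
  | zero => rw [map_zero]; exact Submodule.zero_mem _
  | add x y _ _ hx hy => rw [map_add]; exact Submodule.add_mem _ hx hy
  | smul c x _ hx => rw [map_smul]; exact Submodule.smul_mem _ _ hx

include hT in
theorem actR_comp (Γ : C.A (X.prod Y)) (Δ : C.A (Y.prod Z)) (m : Germ (T.M X)) :
    actR hB T X Z (C.comp Γ Δ) m = actR hB T Y Z Δ (actR hB T X Y Γ m) := by
  obtain ⟨n, hn, w, hw⟩ := exists_multiple hB Γ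
  obtain ⟨n', hn', w', hw'⟩ := exists_multiple hB Δ
  have h1 : C.comp (B.rat _ w) (B.rat _ w') = B.rat _ (B.comp w w') := (hB.rat_comp w w').symm
  have h2 : actG T (B.comp w w') = actG T w' ∘ₗ actG T w := by
    refine germ_ext fun m => ?_
    rw [LinearMap.comp_apply, actG_germ, actG_germ, actG_germ]
    congr 1
    funext k
    exact hT.act_comp w w' (m k)
  rw [eq_inv_smul hB hn hw, eq_inv_smul hB hn' hw', comp_smul_smul, h1, map_smul,
    LinearMap.smul_apply, actR_rat, map_smul, map_smul, LinearMap.smul_apply,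
    LinearMap.smul_apply, map_smul, actR_rat, actR_rat, h2, smul_smul, mul_comm]
  rfl

include hT in
theorem actR_id (m : Germ (T.M X)) : actR hB T X X (C.graph (𝟙 X)) m = m := by
  have h1 : C.graph (𝟙 X) = B.rat _ (B.graph (𝟙 X)) := (hB.rat_graph (𝟙 X)).symm
  rw [h1, actR_rat]
  have h2 : actG T (B.graph (𝟙 X)) = LinearMap.id := by
    refine germ_ext fun m => ?_
    rw [LinearMap.id_apply, actG_germ]
    congr 1
    funext k
    exact hT.pull_id (m k)
  rw [h2, LinearMap.id_apply]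

theorem actR_pow {π : X ⟶ X} {Q : ℕ} (hQ : Q ≠ 0) (hπ : FrobeniusActs T π Q) {i : ℤ} {m : Germ (T.M X)}
    (hm : m ∈ grG T X i) : actR hB T X X (C.cograph π) m = (Q : ℚ) ^ i • m := by
  have h1 : C.cograph π = B.rat _ (B.graph π) := (hB.rat_graph π).symm
  rw [h1, actR_rat]
  unfold grG at hm
  induction hm using Submodule.span_induction with
  | mem m hm =>
    obtain ⟨m', hm', rfl⟩ := hm
    rw [actG_germ]
    have h4 : (Q ^ (-i).toNat) • germ (fun k => T.act (B.graph π) (m' k)) =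
        (Q ^ i.toNat) • germ m' := by
      rw [← map_nsmul, ← map_nsmul]
      congr 1
      funext k
      exact hπ i (m' k) (hm' k)
    rw [← Nat.cast_smul_eq_nsmul ℚ, ← Nat.cast_smul_eq_nsmul ℚ] at h4
    have hQ' : (Q : ℚ) ≠ 0 := by exact_mod_cast hQ
    rcases le_total i 0 with hi | hi
    · obtain ⟨l, rfl⟩ : ∃ l : ℕ, i = -(l : ℤ) := ⟨(-i).toNat, by omega⟩
      rw [neg_neg, Int.toNat_natCast, show (-(l : ℤ)).toNat = 0 by omega, pow_zero, Nat.cast_one,
        one_smul, Nat.cast_pow] at h4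
      rw [zpow_neg, zpow_natCast, ← h4, smul_smul, inv_mul_cancel₀ (pow_ne_zero _ hQ'), one_smul]
    · obtain ⟨l, rfl⟩ := Int.eq_ofNat_of_zero_le hi
      rw [show (-(l : ℤ)).toNat = 0 by omega, pow_zero, Nat.cast_one, one_smul,
        Int.toNat_natCast, Nat.cast_pow] at h4
      rw [zpow_natCast]
      exact h4
  | zero => rw [map_zero, smul_zero]
  | add x y _ _ hx hy => rw [map_add, hx, hy, smul_add]
  | smul c x _ hx => rw [map_smul, hx, smul_comm]

variable (T) in
/-- The rational theory. -/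
noncomputable def corrData : CH.CorrData C where
  M X := Germ (T.M X)
  gr := grG T
  act := fun {X Y} => actR hB T X Y

theorem isCorrTheory (hT : IsIntTheory T) : CH.IsCorrTheory (corrData hB T) where
  app_mem := fun hΓ hm => actR_mem hB hT hΓ hm
  app_comp := fun Γ Δ m => actR_comp hB hT Γ Δ m
  app_id := fun m => actR_id hB hT m

theorem actsAsPower {π : X ⟶ X} {Q : ℕ} (hQ : Q ≠ 0) (hπ : FrobeniusActs T π Q) :
    CH.ActsAsPower (corrData hB T) π Q := fun _ _ hm => actR_pow hB hQ hπ hm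

end Pool.Agent.N205.NR
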