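import Mathlib
import Pool.Agent.N205.NR.Rat
import Pool.Agent.N205.NR.FG

/-!
# The integral decomposition
-/

set_option autoImplicit false
set_option linter.unusedSectionVars false

open CategoryTheory AlgebraicGeometry TensorProduct

universe u v w

namespace Pool.Agent.N205.NR

open Polynomial Pool.Agent.H914 Pool.Agent.H914.VarClass Pool.Agent.H914.VarClass.Obj
  Pool.Agent.W492.BB Pool.Agent.W484

variable {k : Type u} [Field k] {𝒱 : VarClass k} {C : TheoryData.{u, v, 0} 𝒱 ℚ} [hC : IsChow C]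
  {B : IntegralChow C} (hB : IsIntegralChow B) {T : IntTheory B} (hT : IsIntTheory T)
  {A X Y Z : 𝒱.Obj}

include hB in
/-- Common integral multiples. -/
theorem common_multiple {J : Type} [Fintype J] (z : J → C.A X) (d : J → ℤ)
    (hz : ∀ j, C.Deg (d j) (z j)) : ∃ n : ℕ, 0 < n ∧ ∃ w : J → B.CH X,
      (∀ j, w j ∈ B.gr X (d j)) ∧ ∀ j, B.rat X (w j) = (n : ℚ) • z j := by
  classical
  choose n hn w hw hw' using fun j => hB.multiple (hz j)
  refine ⟨∏ j, n j, Finset.prod_pos fun j _ => hn j,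
    fun j => (∏ l ∈ Finset.univ.erase j, n l) • w j, fun j => ?_, fun j => ?_⟩
  · exact AddSubgroup.nsmul_mem _ (hw j) _
  · rw [map_nsmul, hw', ← Nat.cast_smul_eq_nsmul ℚ, smul_smul, ← Nat.cast_mul,
      Finset.prod_erase_mul _ _ (Finset.mem_univ j)]

/-- Data of an integral decomposition: correspondences `ε j` and `δ j` between `Z` and `A × Z`. -/
structure IsDec (B : IntegralChow C) (A Z : 𝒱.Obj) {J : Type} [Fintype J] (deg : J → ℕ)
    (ε : J → B.CH (Z.prod (A.prod Z))) (δ : J → B.CH ((A.prod Z).prod Z)) : Prop where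
  le : ∀ j, deg j ≤ A.dim
  codim : ∀ n ≤ A.dim, ∃ j, deg j = n
  left : ∀ j, ε j ∈ B.gr _ (Z.dim + (deg j : ℤ))
  right : ∀ j, δ j ∈ B.gr _ ((A.prod Z).dim + -(deg j : ℤ))
  zero : ∃ e : ℕ, 0 < e ∧ ∀ j, deg j = 0 → ∃ t : ℤ, e • ε j = t • B.graph (snd A Z)
  inv : ∀ j, ∃ n e : ℕ, 0 < e ∧ n • B.comp (ε j) (δ j) = e • B.graph (𝟙 Z)

include hB in
theorem graph_multiple {ε : B.CH (Z.prod (A.prod Z))} {c : ℚ}
    (h : B.rat _ ε = c • C.cograph (snd A Z)) :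
    ∃ e : ℕ, 0 < e ∧ ∃ t : ℤ, e • ε = t • B.graph (snd A Z) := by
  have h1 : C.cograph (snd A Z) = B.rat _ (B.graph (snd A Z)) := (hB.rat_graph _).symm
  obtain ⟨n, hn, h2⟩ := hB.torsion (z := c.den • ε - c.num • B.graph (snd A Z)) (by
    rw [map_sub, map_nsmul, map_zsmul, h, h1, ← Nat.cast_smul_eq_nsmul ℚ,
      ← Int.cast_smul_eq_zsmul ℚ, smul_smul, Rat.den_mul_eq_num, sub_self])
  refine ⟨n * c.den, Nat.mul_pos hn c.den_pos, n * c.num, ?_⟩
  rw [smul_sub, sub_eq_zero] at h2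
  rw [mul_smul, h2, mul_smul, natCast_zsmul]

include hB in
theorem exists_common_graph {J : Type} [Fintype J] (deg : J → ℕ)
    (ε : J → B.CH (Z.prod (A.prod Z)))
    (h : ∀ j, deg j = 0 → ∃ c : ℚ, B.rat _ (ε j) = c • C.cograph (snd A Z)) :
    ∃ e : ℕ, 0 < e ∧ ∀ j, deg j = 0 → ∃ t : ℤ, e • ε j = t • B.graph (snd A Z) := by
  classical
  have h1 : ∀ j, ∃ e : ℕ, 0 < e ∧ (deg j = 0 → ∃ t : ℤ, e • ε j = t • B.graph (snd A Z)) := by
    intro j
    by_cases hj : deg j = 0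
    · obtain ⟨c, hc⟩ := h j hj
      obtain ⟨e, he, h2⟩ := graph_multiple hB hc
      exact ⟨e, he, fun _ => h2⟩
    · exact ⟨1, one_pos, fun h2 => absurd h2 hj⟩
  choose e he h2 using h1
  refine ⟨∏ j, e j, Finset.prod_pos fun j _ => he j, fun j hj => ?_⟩
  obtain ⟨t, ht⟩ := h2 j hj
  refine ⟨(∏ l ∈ Finset.univ.erase j, e l : ℕ) * t, ?_⟩
  rw [← Finset.prod_erase_mul _ _ (Finset.mem_univ j), mul_smul, ht, mul_smul, natCast_zsmul]

include hB in
theorem exists_inv {D E : C.A A} {ε : B.CH (Z.prod (A.prod Z))} {δ : B.CH ((A.prod Z).prod Z)}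
    {a b : ℕ} (ha : 0 < a) (hb : 0 < b) (hε : B.rat _ ε = (a : ℚ) • CH.extBy C Z D)
    (hδ : B.rat _ δ = (b : ℚ) • CH.pairBy C Z E)
    (h : C.comp (CH.extBy C Z D) (CH.pairBy C Z E) = C.graph (𝟙 Z)) :
    ∃ n e : ℕ, 0 < e ∧ n • B.comp ε δ = e • B.graph (𝟙 Z) := by
  have h1 : C.graph (𝟙 Z) = B.rat _ (B.graph (𝟙 Z)) := (hB.rat_graph (𝟙 Z)).symm
  have h2 : C.comp (B.rat _ ε) (B.rat _ δ) = B.rat _ (B.comp ε δ) := (hB.rat_comp ε δ).symm
  obtain ⟨n, hn, h3⟩ := hB.torsion (z := B.comp ε δ - (a * b) • B.graph (𝟙 Z)) (by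
    rw [map_sub, ← h2, hε, hδ, comp_smul_smul, h, h1, map_nsmul, ← Nat.cast_smul_eq_nsmul ℚ,
      Nat.cast_mul, sub_self])
  refine ⟨n, n * (a * b), Nat.mul_pos hn (Nat.mul_pos ha hb), ?_⟩
  rw [smul_sub, sub_eq_zero] at h3
  rw [h3, smul_smul n]

/-- The decomposition with a uniform multiple. -/
theorem exists_uniform {M : Type v} [AddCommGroup M] (G : AddSubgroup M) (φ : M →+ M)
    (h : ∀ m : ℕ → M, (∀ k, m k ∈ G) → germ (fun k => φ (m k)) = 0) :
    ∃ n : ℕ, 0 < n ∧ ∀ m ∈ G, n • φ m = 0 := by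
  by_contra h0
  push Not at h0
  choose m hm hm' using fun k : ℕ => h0 (k + 1).factorial (Nat.factorial_pos _)
  obtain ⟨n, hn, h1⟩ := germ_torsion (h m hm)
  obtain ⟨l, rfl⟩ : ∃ l, n = l + 1 := ⟨n - 1, by omega⟩
  apply hm' l
  obtain ⟨d, hd⟩ := Nat.dvd_factorial (Nat.succ_pos l) (le_refl (l + 1))
  rw [hd, mul_comm, mul_smul, h1, smul_zero]

include hB hT in
/-- **The integral decomposition.** -/
theorem exists_dec {J : Type} [Fintype J] {D E : J → C.A A} {a b : ℕ}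
    {ε : J → B.CH (Z.prod (A.prod Z))} {δ : J → B.CH ((A.prod Z).prod Z)}
    (hε : ∀ j, B.rat _ (ε j) = (a : ℚ) • CH.extBy C Z (D j))
    (hδ : ∀ j, B.rat _ (δ j) = (b : ℚ) • CH.pairBy C Z (E j)) (i : ℤ)
    (h : ∀ m ∈ (corrData hB T).gr (A.prod Z) i, m = ∑ j, (corrData hB T).act (CH.extBy C Z (D j))
      ((corrData hB T).act (CH.pairBy C Z (E j)) m)) :
    ∃ n : ℕ, 0 < n ∧ ∀ m ∈ T.gr (A.prod Z) i,
      (n * (a * b)) • m = n • ∑ j, T.act (ε j) (T.act (δ j) m) := by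
  have h' : ∀ m : Germ (T.M (A.prod Z)), m ∈ grG T (A.prod Z) i → m = ∑ j, actR hB T _ _
      (CH.extBy C Z (D j)) (actR hB T _ _ (CH.pairBy C Z (E j)) m) := h
  have key : ∀ m : ℕ → T.M (A.prod Z), (∀ k, m k ∈ T.gr (A.prod Z) i) →
      germ (fun k => ((nsmulAddMonoidHom (a * b) : T.M (A.prod Z) →+ T.M (A.prod Z)) -
      ∑ j, (T.act (ε j)).comp (T.act (δ j))) (m k)) = 0 := by
    intro m hm
    have h2 := h' (germ m) (germ_mem T hm)
    have h3 : ∀ j, (a * b : ℕ) • actR hB T _ _ (CH.extBy C Z (D j))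
        (actR hB T _ _ (CH.pairBy C Z (E j)) (germ m)) =
        germ fun k => T.act (ε j) (T.act (δ j) (m k)) := by
      intro j
      have h4 : actR hB T _ _ (B.rat _ (ε j)) (actR hB T _ _ (B.rat _ (δ j)) (germ m)) =
          germ fun k => T.act (ε j) (T.act (δ j) (m k)) := by
        rw [actR_rat, actR_rat, actG_germ, actG_germ]
      rw [← h4, hε, hδ, map_smul, map_smul, LinearMap.smul_apply, LinearMap.smul_apply, map_smul,
        smul_smul, ← Nat.cast_smul_eq_nsmul ℚ, Nat.cast_mul]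
    have h4 : germ (fun k => ((nsmulAddMonoidHom (a * b) : T.M (A.prod Z) →+ T.M (A.prod Z)) -
        ∑ j, (T.act (ε j)).comp (T.act (δ j))) (m k)) = (a * b : ℕ) • germ m -
          ∑ j, germ fun k => T.act (ε j) (T.act (δ j) (m k)) := by
      rw [← map_nsmul, ← map_sum, ← map_sub]
      congr 1
      funext k
      rw [AddMonoidHom.sub_apply, AddMonoidHom.finsetSum_apply, Pi.sub_apply, Finset.sum_apply]
      rfl
    rw [h4, sub_eq_zero]
    have h5 : (a * b : ℕ) • germ m = (a * b : ℕ) • ∑ j, actR hB T _ _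
      (CH.extBy C Z (D j)) (actR hB T _ _ (CH.pairBy C Z (E j)) (germ m)) := congrArg _ h2
    rw [h5, Finset.smul_sum, Finset.sum_congr rfl fun j _ => h3 j]
  obtain ⟨n, hn, h1⟩ := exists_uniform (T.gr (A.prod Z) i) _ key
  refine ⟨n, hn, fun m hm => ?_⟩
  have h2 := h1 m hm
  rw [AddMonoidHom.sub_apply, smul_sub, sub_eq_zero, AddMonoidHom.finsetSum_apply] at h2
  rw [mul_smul]
  exact h2

end Pool.Agent.N205.NR
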