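import Mathlib
import Pool.Agent.N205.NR.Defs

/-!
# Unramified cohomology of products with abelian varieties: the property
-/

set_option autoImplicit false

open CategoryTheory AlgebraicGeometry

universe u v w

namespace Pool.Agent.N205.NR

open Polynomial Pool.Agent.H914 Pool.Agent.H914.VarClass Pool.Agent.H914.VarClass.Obj
  Pool.Agent.W492.BB Pool.Agent.W484.CK Pool.Agent.N205.SE

/-- Let `o` be a section of the projection `A × Z → Z`. The pull-back along the projection identifies
`CH^2(Z)`, `H^4_et(Z, ℤ(2))` and `H^3_nr(Z, ℚ/ℤ(2))` with direct summands of the groups of `A × Z`, the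
complements being the kernels of `o^*`. These complements are finitely generated for the first two
groups (`chow`, `etale`) and finite for the third one (`unramified`). In particular
`H^3_nr(A × Z, ℚ/ℤ(2))` is finite if and only if `H^3_nr(Z, ℚ/ℤ(2))` is finite, and `CH^2(A × Z)` (or
`H^4_et(A × Z, ℤ(2))`) is finitely generated if and only if the group of `Z` is. If
`H^4_et(Z, ℤ(2))` is finitely generated then for all varieties `X` dominated by `A × Z` the groups
`CH^2(X)` and `H^4_et(X, ℤ(2))` are finitely generated and `H^3_nr(X, ℚ/ℤ(2))` is finite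
(`dominated`). -/
structure SameUnramified {k : Type u} [Field k] {𝒱 : VarClass k} {C : TheoryData.{u, v, 0} 𝒱 ℚ}
    {B : IntegralChow C} {S T : IntTheory B} (U : Unramified S T) {A Z : 𝒱.Obj}
    (o : Z ⟶ A.prod Z) : Prop where
  chow : (S.kernel o 2).FG
  etale : (T.kernel o 2).FG
  unramified : Finite (U.pullH o).ker
  pull_id : ∀ h : U.Hnr Z, U.pullH o (U.pullH (snd A Z) h) = h
  unramified_iff : Finite (U.Hnr (A.prod Z)) ↔ Finite (U.Hnr Z)
  chow_iff : (S.gr (A.prod Z) 2).FG ↔ (S.gr Z 2).FG
  etale_iff : (T.gr (A.prod Z) 2).FG ↔ (T.gr Z 2).FG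
  dominated : (T.gr Z 2).FG → ∀ X : 𝒱.Obj, IsDominated B X (A.prod Z) →
    (S.gr X 2).FG ∧ (T.gr X 2).FG ∧ Finite (U.Hnr X)

/-- `HnrForIndep q f`: the following holds for the Chow groups with rational coefficients (`C`) and
with integral coefficients (`B`) of all classes `𝒱` of varieties over fields `k` (finite, in the
intended use), every Weil cohomology theory `H` with coefficients in an algebraically closed field `K`
of characteristic zero, all `A`, `Z` as in `IsIndepSituation`, the Chow groups `S`, the étale motivic
cohomology groups `T` and the unramified cohomology groups, with their known properties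
(`IsUnramified`; the Frobenius endomorphism `πA × πZ` of `A × Z` acts on `H^(2 i)_et(A × Z, ℤ(i))` as
multiplication by `q ^ (s i)`), and all sections `o` of the projection `A × Z → Z`, for instance the
zero section: the complements of the groups `CH^2(Z)`, `H^4_et(Z, ℤ(2))` and `H^3_nr(Z, ℚ/ℤ(2))` in
those of `A × Z` are finitely generated, finitely generated and finite (`SameUnramified`). -/
def HnrForIndep (q : ℕ) {I : Type} (f : I → ℤ[X]) : Prop :=
  ∀ (k : Type) [Field k] (𝒱 : VarClass k) (C : TheoryData.{0, 0, 0} 𝒱 ℚ) [IsChow C]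
    (K : Type) [Field K] [IsAlgClosed K] [CharZero K] (H : WeilTheoryData.{0, 0, 0} C K)
    [IsWeil H] (s : ℕ) (A Z : 𝒱.Obj) (πA : A ⟶ A) (πZ : Z ⟶ Z),
      IsIndepSituation H q s f πA πZ → ∀ (B : IntegralChow C) (S T : IntTheory B)
        (U : Unramified S T), IsIntegralChow B → IsIntTheory S → IsIntTheory T →
          IsUnramified U → FrobeniusActs T (prodMap πA πZ) (q ^ s) →
            ∀ o : Z ⟶ A.prod Z, o ≫ snd A Z = 𝟙 Z → SameUnramified U o

end Pool.Agent.N205.NR
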