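import Mathlib
import Pool.Agent.N205.NR.Decomp
import Pool.Agent.N205.NR.Stm
import Pool.Agent.N205.NR.Full
import Pool.Agent.N205.SE.Motivic

/-!
# Unramified cohomology of products with abelian varieties: the proof
-/

set_option autoImplicit false
set_option linter.unusedSectionVars false

open CategoryTheory AlgebraicGeometry TensorProduct

universe u v w

namespace Pool.Agent.N205.NR

open Polynomial Pool.Agent.H914 Pool.Agent.H914.VarClass Pool.Agent.H914.VarClass.Obj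
  Pool.Agent.W492.BB Pool.Agent.W484

section formal

variable {k : Type u} [Field k] {𝒱 : VarClass k} {C : TheoryData.{u, v, 0} 𝒱 ℚ}
  {B : IntegralChow C} (hB : IsIntegralChow B) {T : IntTheory B} (hT : IsIntTheory T)
  {A X Y Z : 𝒱.Obj} {o : Z ⟶ A.prod Z} (ho : o ≫ snd A Z = 𝟙 Z)

include hB hT ho in
theorem pull_pull (z : T.M Z) : T.pull o (T.pull (snd A Z) z) = z := by
  have h1 := hT.act_comp (B.graph (snd A Z)) (B.graph o) z
  rw [hB.comp_graph, ho] at h1
  exact h1.symm.trans (hT.pull_id z)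

/-- The projection to the kernel of the pull-back along the section. -/
noncomputable def off (T : IntTheory B) (o : Z ⟶ A.prod Z) : T.M (A.prod Z) →+ T.M (A.prod Z) :=
  AddMonoidHom.id _ - (T.pull (snd A Z)).comp (T.pull o)

theorem off_apply (m : T.M (A.prod Z)) : off T o m = m - T.pull (snd A Z) (T.pull o m) := rfl

include hB hT ho in
theorem off_pull (z : T.M Z) : off T o (T.pull (snd A Z) z) = 0 := by
  rw [off_apply, pull_pull hB hT ho, sub_self]

theorem off_of_ker {m : T.M (A.prod Z)} (hm : T.pull o m = 0) : off T o m = m := by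
  rw [off_apply, hm, map_zero, sub_zero]

include hB hT ho in
theorem off_mem {i : ℤ} {m : T.M (A.prod Z)} (hm : m ∈ T.gr (A.prod Z) i) :
    off T o m ∈ T.kernel o i := by
  refine ⟨?_, ?_⟩
  · exact AddSubgroup.sub_mem _ hm (hT.pull_mem _ (hT.pull_mem _ hm))
  · change T.pull o (off T o m) = 0
    rw [off_apply, map_sub, pull_pull hB hT ho, sub_self]

include hB hT ho in
/-- The group of `A × Z` is finitely generated if the group of `Z` and the kernel are. -/
theorem fg_iff_of_kernel {i : ℤ} (h : (T.kernel o i).FG) :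
    (T.gr (A.prod Z) i).FG ↔ (T.gr Z i).FG := by
  constructor
  · intro h1
    refine fg_of_le (fg_map h1 (T.pull o)) fun z hz => ?_
    exact ⟨T.pull (snd A Z) z, hT.pull_mem _ hz, pull_pull hB hT ho z⟩
  · intro h1
    have h2 := fg_map h1 (T.pull (snd A Z))
    refine fg_of_le (W := (T.gr Z i).map (T.pull (snd A Z)) ⊔ T.kernel o i) ?_ fun m hm => ?_
    · rw [fg_iff] at h h2 ⊢
      have h3 : AddSubgroup.toIntSubmodule ((T.gr Z i).map (T.pull (snd A Z)) ⊔ T.kernel o i) =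
          AddSubgroup.toIntSubmodule ((T.gr Z i).map (T.pull (snd A Z))) ⊔
            AddSubgroup.toIntSubmodule (T.kernel o i) := map_sup _ _ _
      rw [h3]
      exact h2.sup h
    · have h3 : m = T.pull (snd A Z) (T.pull o m) + off T o m := by
        rw [off_apply, add_sub_cancel]
      rw [h3]
      exact AddSubgroup.add_mem_sup ⟨_, hT.pull_mem _ hm, rfl⟩ (off_mem hB hT ho hm)

end formal

section kernel

variable {k : Type u} [Field k] {𝒱 : VarClass k} {C : TheoryData.{u, v, 0} 𝒱 ℚ} [hC : IsChow C]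
  {B : IntegralChow C} (hB : IsIntegralChow B) {S T : IntTheory B} (hS : IsIntTheory S)
  (hT : IsIntTheory T) {U : Unramified S T} (hU : IsUnramified U)
  {A X Y Z : 𝒱.Obj} {o : Z ⟶ A.prod Z} (ho : o ≫ snd A Z = 𝟙 Z)
  {J : Type} [Fintype J] {deg : J → ℕ} {ε : J → B.CH (Z.prod (A.prod Z))}
  {δ : J → B.CH ((A.prod Z).prod Z)} (hdec : IsDec B A Z deg ε δ)

/-- The products with elements of lower degree. -/
noncomputable def low (T : IntTheory B) (o : Z ⟶ A.prod Z) (deg : J → ℕ)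
    (ε : J → B.CH (Z.prod (A.prod Z))) (i : ℤ) : AddSubgroup (T.M (A.prod Z)) :=
  ⨆ j : {j // deg j ≠ 0}, (T.gr Z (i + -(deg j : ℤ))).map ((off T o).comp (T.act (ε j)))

include hB hT ho hdec in
theorem kernel_smul {i : ℤ} {n N : ℕ} (hN : 0 < N)
    (h : ∀ m ∈ T.gr (A.prod Z) i, N • m = n • ∑ j, T.act (ε j) (T.act (δ j) m)) :
    ∃ e : ℕ, 0 < e ∧ ∀ m ∈ T.kernel o i, e • m ∈ low T o deg ε i := by
  obtain ⟨e, he, ht⟩ := hdec.zero
  refine ⟨e * N, Nat.mul_pos he hN, fun m hm => ?_⟩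
  have h1 : N • m = n • ∑ j, off T o (T.act (ε j) (T.act (δ j) m)) := by
    have h2 := congrArg (off T o) (h m hm.1)
    rw [map_nsmul, map_nsmul, map_sum, off_of_ker hm.2] at h2
    exact h2
  rw [mul_smul, h1, smul_comm, Finset.smul_sum]
  refine AddSubgroup.nsmul_mem _ (AddSubgroup.sum_mem _ fun j _ => ?_) n
  by_cases hj : deg j = 0
  · obtain ⟨t, ht⟩ := ht j hj
    have h2 : e • off T o (T.act (ε j) (T.act (δ j) m)) = 0 := by
      have h3 : e • T.act (ε j) (T.act (δ j) m) = t • T.pull (snd A Z) (T.act (δ j) m) := by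
        have h4 := congrArg (fun Γ => T.act Γ (T.act (δ j) m)) ht
        beta_reduce at h4
        rw [map_nsmul, map_zsmul, AddMonoidHom.nsmul_apply, AddMonoidHom.zsmul_apply] at h4
        exact h4
      rw [← map_nsmul, h3, map_zsmul, off_pull hB hT ho, smul_zero]
    rw [h2]
    exact AddSubgroup.zero_mem _
  · refine AddSubgroup.nsmul_mem _ ?_ e
    refine AddSubgroup.mem_iSup_of_mem (⟨j, hj⟩ : {j // deg j ≠ 0}) ?_
    exact ⟨T.act (δ j) m, hT.act_mem (hdec.right j) hm.1, rfl⟩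

include hU in
theorem fg_low (X : 𝒱.Obj) {i : ℤ} (hi : i ≤ 1) : (T.gr X i).FG := by
  refine fg_of_le (fg_map (hU.low_fg X i hi) (U.cyc X)) fun t ht => ?_
  obtain ⟨z, hz, rfl⟩ := hU.low hi ht
  exact ⟨z, hz, rfl⟩

include hU in
theorem low_fg : (low T o deg ε 2).FG := by
  refine fg_iSup fun j => fg_map (fg_low hU Z ?_) _
  have := j.2
  omega

include hU in
theorem cyc_off (z : S.M (A.prod Z)) : off T o (U.cyc _ z) = U.cyc _ (off S o z) := by
  rw [off_apply, off_apply, map_sub]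
  congr 1
  change T.act _ (T.act _ _) = U.cyc _ (S.act _ (S.act _ _))
  rw [hU.cyc_act, hU.cyc_act]

include hU hS hdec hB ho in
theorem low_le {t : T.M (A.prod Z)} (ht : t ∈ low T o deg ε 2) :
    ∃ z ∈ S.gr (A.prod Z) 2, U.cyc _ z = t := by
  have h1 : low T o deg ε 2 ≤ (S.gr (A.prod Z) 2).map (U.cyc _) := by
    refine iSup_le fun j => ?_
    rintro _ ⟨y, hy, rfl⟩
    obtain ⟨z, hz, rfl⟩ := hU.low (by have := j.2; omega) hy
    refine ⟨off S o (S.act (ε j) z), ?_, ?_⟩
    · have h2 := hS.act_mem (hdec.left j) hz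
      rw [neg_add_cancel_right] at h2
      exact (off_mem hB hS ho h2).1
    · rw [← cyc_off hU, hU.cyc_act]
      rfl
  exact h1 ht

include hB hT hdec in
/-- **Finite generation for products.** -/
theorem fg_prod_iff {i : ℤ} {n N : ℕ} (hN : 0 < N)
    (h : ∀ m ∈ T.gr (A.prod Z) i, N • m = n • ∑ j, T.act (ε j) (T.act (δ j) m))
    (h1 : FiniteTorsion T (A.prod Z) i) (h2 : ∀ i, FiniteTorsion T Z i) :
    (T.gr (A.prod Z) i).FG ↔ ∀ c : ℕ, c ≤ A.dim → (T.gr Z (i - c)).FG := by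
  constructor
  · intro h3 c hc
    obtain ⟨j, rfl⟩ := hdec.codim c hc
    obtain ⟨a, e, he, h4⟩ := hdec.inv j
    refine fg_of_smul (fg_map h3 (T.act (δ j))) (n := e) (fun z hz => ?_) (h2 _ e he)
    have h5 : e • z = a • T.act (δ j) (T.act (ε j) z) := by
      have h6 := congrArg (fun Γ => T.act Γ z) h4
      beta_reduce at h6
      rw [map_nsmul, map_nsmul, AddMonoidHom.nsmul_apply, AddMonoidHom.nsmul_apply,
        hT.act_comp] at h6
      rw [h6]
      congr 1
      exact (hT.pull_id z).symm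
    have h6 := hT.act_mem (hdec.left j) hz
    rw [sub_add_cancel] at h6
    rw [h5]
    exact AddSubgroup.nsmul_mem _ (AddSubgroup.mem_map_of_mem (T.act (δ j)) h6) a
  · intro h3
    refine fg_of_smul (W := ⨆ j, (T.gr Z (i - deg j)).map (T.act (ε j)))
      (fg_iSup fun j => fg_map (h3 _ (hdec.le j)) _) (n := N) (fun m hm => ?_) (h1 N hN)
    rw [h m hm]
    refine AddSubgroup.nsmul_mem _ (AddSubgroup.sum_mem _ fun j _ => ?_) n
    exact AddSubgroup.mem_iSup_of_mem j ⟨_, hT.act_mem (hdec.right j) hm, rfl⟩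

include hT in
theorem fg_dominated {i : ℤ} (h : IsDominated B X Y) (h1 : FiniteTorsion T X i)
    (h2 : (T.gr Y i).FG) : (T.gr X i).FG := by
  obtain ⟨n, hn, α, hα, β, hβ, hαβ⟩ := h
  refine fg_of_smul (fg_map h2 (T.act β)) (n := n) (fun z hz => ?_) (h1 n hn)
  have h5 : n • z = T.act β (T.act α z) := by
    have h6 := congrArg (fun Γ => T.act Γ z) hαβ
    beta_reduce at h6
    rw [map_nsmul, AddMonoidHom.nsmul_apply, hT.act_comp] at h6
    rw [h6]
    congr 1
    exact (hT.pull_id z).symm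
  rw [h5]
  have h6 := hT.act_mem (j := 0) (by rw [add_zero]; exact hα) hz
  rw [add_zero] at h6
  exact ⟨_, h6, rfl⟩

include hU in
theorem finite_of_etale {X : 𝒱.Obj} (h : (T.gr X 2).FG) : (S.gr X 2).FG ∧ Finite (U.Hnr X) := by
  constructor
  · have h1 : ((S.gr X 2).map (U.cyc _)).FG := by
      refine fg_of_le h ?_
      rintro _ ⟨z, hz, rfl⟩
      exact hU.cyc_mem hz
    rw [fg_iff] at h1 ⊢
    refine Submodule.fg_of_fg_map_of_fg_inf_ker (U.cyc X).toIntLinearMap h1 ?_
    have h2 : (AddSubgroup.toIntSubmodule (S.gr X 2) ⊓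
        LinearMap.ker (U.cyc X).toIntLinearMap) = ⊥ := by
      rw [eq_bot_iff]
      rintro z ⟨hz1, hz2⟩
      exact hU.injective hz1 hz2
    rw [h2]
    exact Submodule.fg_bot
  · have h1 := fg_map ((AddGroup.fg_iff_addSubgroup_fg _).2 h).out (U.toHnr X)
    have h2 : (⊤ : AddSubgroup (U.Hnr X)) ≤ (⊤ : AddSubgroup (T.gr X 2)).map (U.toHnr X) := by
      intro x _
      obtain ⟨t, rfl⟩ := hU.surjective X x
      exact ⟨t, AddSubgroup.mem_top _, rfl⟩
    have h3 : AddGroup.FG (U.Hnr X) := ⟨fg_of_le h1 h2⟩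
    exact AddCommGroup.finite_of_fg_isAddTorsion _ fun x =>
      isOfFinAddOrder_iff_nsmul_eq_zero.2 (hU.isTorsion x)

include hB hS hT hU ho hdec in
/-- **The complements are finitely generated or finite.** -/
theorem same_of_dec {n N : ℕ} (hN : 0 < N)
    (h : ∀ m ∈ T.gr (A.prod Z) 2, N • m = n • ∑ j, T.act (ε j) (T.act (δ j) m)) :
    SameUnramified U o := by
  obtain ⟨e, he, hlow⟩ := kernel_smul hB hT ho hdec hN h
  have hTfg : (T.kernel o 2).FG :=
    fg_of_smul (low_fg hU) hlow ((hU.torsion _ e he).subset fun m hm => ⟨hm.1.1, hm.2⟩)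
  have hpull : ∀ (z : S.M (A.prod Z)), U.cyc _ (S.pull o z) = T.pull o (U.cyc _ z) :=
    fun z => hU.cyc_act _ z
  have hSfg : (S.kernel o 2).FG := by
    have h1 : ((S.kernel o 2).map (U.cyc _)).FG := by
      refine fg_of_le hTfg ?_
      rintro _ ⟨z, hz, rfl⟩
      refine ⟨hU.cyc_mem hz.1, ?_⟩
      change T.pull o (U.cyc _ z) = 0
      rw [← hpull, show S.pull o z = 0 from hz.2, map_zero]
    rw [fg_iff] at h1 ⊢
    refine Submodule.fg_of_fg_map_of_fg_inf_ker (U.cyc (A.prod Z)).toIntLinearMap h1 ?_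
    have h2 : (AddSubgroup.toIntSubmodule (S.kernel o 2) ⊓
        LinearMap.ker (U.cyc (A.prod Z)).toIntLinearMap) = ⊥ := by
      rw [eq_bot_iff]
      rintro z ⟨hz1, hz2⟩
      exact hU.injective hz1.1 hz2
    rw [h2]
    exact Submodule.fg_bot
  -- unramified cohomology
  have hid : ∀ x : U.Hnr Z, U.pullH o (U.pullH (snd A Z) x) = x := by
    intro x
    obtain ⟨t, rfl⟩ := hU.surjective Z x
    rw [hU.pull_toHnr (snd A Z) t ⟨_, hT.pull_mem (snd A Z) t.2⟩ rfl,
      hU.pull_toHnr o _ t (pull_pull hB hT ho _).symm]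
  have hsurj : ∀ x : U.Hnr (A.prod Z), U.pullH o x = 0 → ∃ t : T.gr (A.prod Z) 2,
      (t : T.M (A.prod Z)) ∈ T.kernel o 2 ∧ U.toHnr _ t = x := by
    intro x hx
    obtain ⟨t, rfl⟩ := hU.surjective _ x
    rw [hU.pull_toHnr o t ⟨_, hT.pull_mem o t.2⟩ rfl, hU.exact] at hx
    obtain ⟨z, hz, hz'⟩ := hx
    change U.cyc Z z = T.pull o t at hz'
    refine ⟨⟨off T o t, (off_mem hB hT ho t.2).1⟩, off_mem hB hT ho t.2, ?_⟩
    rw [← sub_eq_zero, ← map_sub, ← neg_eq_zero, ← map_neg, hU.exact]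
    refine ⟨S.pull (snd A Z) z, hS.pull_mem _ hz, ?_⟩
    have h1 : U.cyc _ (S.pull (snd A Z) z) = T.pull (snd A Z) (U.cyc _ z) := hU.cyc_act _ z
    rw [h1, hz']
    change _ = -(off T o t - t)
    rw [off_apply]
    abel
  have hfin : Finite (U.pullH o).ker := by
    let ψ : T.kernel o 2 →+ U.Hnr (A.prod Z) :=
      (U.toHnr _).comp (AddSubgroup.inclusion inf_le_left)
    have h1 : (⊤ : AddSubgroup (T.kernel o 2)).FG :=
      ((AddGroup.fg_iff_addSubgroup_fg _).2 hTfg).out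
    have h2 : (U.pullH o).ker.FG := by
      refine fg_of_le (fg_map h1 ψ) fun x hx => ?_
      obtain ⟨t, ht, rfl⟩ := hsurj x hx
      exact ⟨⟨t, ht⟩, AddSubgroup.mem_top _, rfl⟩
    refine finite_of_fg (((AddGroup.fg_iff_addSubgroup_fg _).2 h2).out) he fun x => ?_
    obtain ⟨t, ht, htx⟩ := hsurj x x.2
    apply Subtype.ext
    change e • (x : U.Hnr (A.prod Z)) = 0
    rw [← htx, ← map_nsmul, hU.exact]
    exact low_le hB hS hU ho hdec (hlow t ht)
  refine ⟨hSfg, hTfg, hfin, hid, ?_, fg_iff_of_kernel hB hS ho hSfg,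
    fg_iff_of_kernel hB hT ho hTfg, fun h1 X hX => ?_⟩
  swap
  · have h2 := fg_dominated hT hX (hU.torsion X) ((fg_iff_of_kernel hB hT ho hTfg).2 h1)
    have h3 := finite_of_etale hU h2
    exact ⟨h3.1, h2, h3.2⟩
  constructor
  · intro h1
    exact Finite.of_surjective (U.pullH o) fun x => ⟨_, hid x⟩
  · intro h1
    refine Finite.of_injective (β := U.Hnr Z × (U.pullH o).ker)
      (fun x => (U.pullH o x, ⟨x - U.pullH (snd A Z) (U.pullH o x), ?_⟩)) ?_
    · rw [AddMonoidHom.mem_ker, map_sub, hid, sub_self]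
    · intro x y hxy
      have h2 := (Prod.ext_iff.1 hxy).1
      have h3 := congrArg Subtype.val (Prod.ext_iff.1 hxy).2
      dsimp only at h2 h3
      rw [h2] at h3
      exact sub_left_injective h3

end kernel

section main

open Module Pool.Agent.W550.Corr Pool.Agent.W484.TB Pool.Agent.W484.HS
  Pool.Agent.W521.Frob Pool.Agent.W521.Count Pool.Agent.W521.Bad Pool.Agent.W521.Descent
  Pool.Agent.W521.Density Pool.Agent.N205.SD Pool.Agent.N205.SE Pool.Agent.W484.CK

variable {I : Type} [Finite I] (g : I → ℕ) (hg : ∀ i, 0 < g i)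
  {q : ℕ} (hq : 1 < q) (x : (Σ i, Fin (g i)) → ℤ) (hx : Good g q x)

include hg hq hx

/-- **The integral decomposition for all theories.** -/
theorem exists_system {k : Type u} [Field k] {𝒱 : VarClass k} {C : TheoryData.{u, v, 0} 𝒱 ℚ}
    [IsChow C] {K : Type w} [Field K] [IsAlgClosed K] [CharZero K]
    {H : WeilTheoryData.{u, v, w} C K} [IsWeil H] {s : ℕ} {A Z : 𝒱.Obj} {πA : A ⟶ A} {πZ : Z ⟶ Z}
    (hsit : IsIndepSituation H q s (fun i => weil q (polys g x i)) πA πZ) {B : IntegralChow C}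
    (hB : IsIntegralChow B) : ∃ (J : Type) (_ : Fintype J) (deg : J → ℕ)
      (ε : J → B.CH (Z.prod (A.prod Z))) (δ : J → B.CH ((A.prod Z).prod Z)),
      IsDec B A Z deg ε δ ∧ ∀ T : IntTheory B, IsIntTheory T →
        FrobeniusActs T (prodMap πA πZ) (q ^ s) → ∀ i : ℤ, ∃ N n : ℕ, 0 < N ∧
          ∀ m ∈ T.gr (A.prod Z) i, N • m = n • ∑ j, T.act (ε j) (T.act (δ j) m) := by
  obtain ⟨J, hJ, deg, D, E', hcod, hdual, hK⟩ := kunneth_full g hg hq x hx
    (isStandard_bridge hsit.standard) hsit.pos (isAbelian_bridge hsit.abelian)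
    (πZ := πZ) hsit.indep (nilpotence_bridge hsit.nilpotence)
  obtain ⟨a, ha, ε, hε, hε'⟩ := common_multiple hB (fun j => CH.extBy C Z (D j))
    (fun j => (Z.dim + (deg j : ℤ))) fun j => CH.extBy_mem (hdual.left j)
  obtain ⟨b, hb, δ, hδ, hδ'⟩ := common_multiple hB (fun j => CH.pairBy C Z (E' j))
    (fun j => ((A.prod Z).dim + -(deg j : ℤ))) fun j => CH.pairBy_mem (hdual.right j)
  refine ⟨J, hJ, deg, ε, δ, ⟨hdual.le, hcod, hε, hδ,
    exists_common_graph hB deg ε fun j hj => ?_, fun j => exists_inv hB ha hb (hε' j) (hδ' j)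
      (CH.comp_extBy_same hdual j)⟩, fun T hT hF i => ?_⟩
  · have h1 := hdual.left j
    rw [hj] at h1
    obtain ⟨c, hc⟩ := hsit.standard.chow_zero A (D j) h1
    refine ⟨a * c, ?_⟩
    rw [hε', hc, mul_smul]
    congr 1
    rw [CH.extBy, map_smul, map_smul, map_one]
    rfl
  · obtain ⟨n, hn, h1⟩ := exists_dec hB hT hε' hδ' i fun m hm =>
      hK (corrData hB T) (isCorrTheory hB hT) (actsAsPower hB (pow_ne_zero _ (by omega)) hF) i m hm
    exact ⟨n * (a * b), n, Nat.mul_pos hn (Nat.mul_pos ha hb), h1⟩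

/-- **Unramified cohomology.** -/
theorem hnr_indep : HnrForIndep q (fun i => weil q (polys g x i)) := by
  intro k _ 𝒱 C _ K _ _ _ H _ s A Z πA πZ hsit B S T U hB hS hT hU hF o ho
  obtain ⟨J, hJ, deg, ε, δ, hdec, h⟩ := exists_system g hg hq x hx hsit hB
  obtain ⟨N, n, hN, h1⟩ := h T hT hF 2
  exact same_of_dec hB hS hT hU ho hdec hN h1

end main

end Pool.Agent.N205.NR
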