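import Mathlib
import Pool.Agent.N205.NR.Defs

/-!
# Finite generation of motivic cohomology of products with abelian varieties: the property
-/

set_option autoImplicit false

open CategoryTheory AlgebraicGeometry

namespace Pool.Agent.N205.NR

open Polynomial Pool.Agent.H914 Pool.Agent.H914.VarClass Pool.Agent.H914.VarClass.Obj
  Pool.Agent.W492.BB Pool.Agent.W484.CK Pool.Agent.N205.SE

/-- `FGForIndep q f`: the following holds for the Chow groups with rational coefficients (`C`) and
with integral coefficients (`B`) of all classes `𝒱` of varieties over fields `k` (finite, in the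
intended use), every Weil cohomology theory `H` with coefficients in an algebraically closed field `K`
of characteristic zero, all `A`, `Z` as in `IsIndepSituation`, and all theories `T` with integral
coefficients on which correspondences act such that all groups `T^i(X)` have finitely many elements
of each order and such that the Frobenius endomorphism `πA × πZ` of `A × Z` acts on `T^i(A × Z)` as
multiplication by `q ^ (s i)`; for instance the Weil-étale or the étale motivic cohomology groups
`T^i(X) = H^(2 i - m)(X, ℤ(i))`, for any `m`:
* `T^i(A × Z)` is finitely generated if and only if the groups `T^(i - c)(Z)`, `0 ≤ c ≤ dim A`, are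
  finitely generated;
* if these groups are finitely generated then so is `T^i(X)` for all varieties `X` dominated by
  `A × Z`. -/
def FGForIndep (q : ℕ) {I : Type} (f : I → ℤ[X]) : Prop :=
  ∀ (k : Type) [Field k] (𝒱 : VarClass k) (C : TheoryData.{0, 0, 0} 𝒱 ℚ) [IsChow C]
    (K : Type) [Field K] [IsAlgClosed K] [CharZero K] (H : WeilTheoryData.{0, 0, 0} C K)
    [IsWeil H] (s : ℕ) (A Z : 𝒱.Obj) (πA : A ⟶ A) (πZ : Z ⟶ Z),
      IsIndepSituation H q s f πA πZ → ∀ (B : IntegralChow C) (T : IntTheory B),
        IsIntegralChow B → IsIntTheory T → (∀ (X : 𝒱.Obj) (i : ℤ), FiniteTorsion T X i) →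
          FrobeniusActs T (prodMap πA πZ) (q ^ s) → ∀ i : ℤ,
            ((T.gr (A.prod Z) i).FG ↔ ∀ c : ℕ, c ≤ A.dim → (T.gr Z (i - c)).FG) ∧
              ∀ X : 𝒱.Obj, IsDominated B X (A.prod Z) →
                (∀ c : ℕ, c ≤ A.dim → (T.gr Z (i - c)).FG) → (T.gr X i).FG

end Pool.Agent.N205.NR
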