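import Mathlib
import Pool.Agent.N205.NR.Main
import Pool.Agent.N205.NR.StmFG

/-!
# Finite generation of motivic cohomology of products with abelian varieties: the proof
-/

set_option autoImplicit false
set_option linter.unusedSectionVars false

open CategoryTheory AlgebraicGeometry

namespace Pool.Agent.N205.NR

open Module Polynomial Pool.Agent.H914 Pool.Agent.H914.VarClass Pool.Agent.H914.VarClass.Obj
  Pool.Agent.W492.BB Pool.Agent.W484 Pool.Agent.W550.Corr Pool.Agent.W484.TB
  Pool.Agent.W484.HS Pool.Agent.W521.Frob Pool.Agent.W521.Count Pool.Agent.W521.Bad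
  Pool.Agent.W521.Descent Pool.Agent.W521.Density Pool.Agent.N205.SD Pool.Agent.N205.SE
  Pool.Agent.W484.CK

variable {I : Type} [Finite I] (g : I → ℕ) (hg : ∀ i, 0 < g i)
  {q : ℕ} (hq : 1 < q) (x : (Σ i, Fin (g i)) → ℤ) (hx : Good g q x)

include hg hq hx in
/-- **Finite generation.** -/
theorem fg_indep : FGForIndep q (fun i => weil q (polys g x i)) := by
  intro k _ 𝒱 C _ K _ _ _ H _ s A Z πA πZ hsit B T hB hT htor hF i
  obtain ⟨J, hJ, deg, ε, δ, hdec, h⟩ := exists_system g hg hq x hx hsit hB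
  obtain ⟨N, n, hN, h1⟩ := h T hT hF i
  have h2 := fg_prod_iff hB hT hdec hN h1 (htor _ i) (htor Z)
  exact ⟨h2, fun X hX h3 => fg_dominated hT hX (htor X i) (h2.2 h3)⟩

end Pool.Agent.N205.NR
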